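import Pool.Agent.H284Z.Lin.Count

set_option autoImplicit false

namespace Pool.Agent.H284Z.Lin

open Finset BigOperators

/-- digit number `i` of `c` in base `k` -/
def dig (k c i : ℕ) : ℕ := c / k ^ i % k

theorem dig_symm {m n : ℕ} (c : Fin (m ^ n)) (i : Fin n) :
    ((finFunctionFinEquiv.symm c i : Fin m) : ℕ) = dig m c i :=
  finFunctionFinEquiv_symm_apply_val c i

theorem dig_ffe {m n : ℕ} (f : Fin n → Fin m) (i : Fin n) :
    dig m (finFunctionFinEquiv f) i = f i := by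
  rw [← dig_symm, Equiv.symm_apply_apply]

theorem dig_two_lt (c i : ℕ) : dig 2 c i < 2 := Nat.mod_lt _ (by norm_num)

theorem exists_code (K : ℕ) (P : ℕ → Prop) :
    ∃ b, b < 2 ^ K ∧ ∀ τ, τ < K → (dig 2 b τ = 1 ↔ P τ) := by
  classical
  refine ⟨finFunctionFinEquiv (fun i : Fin K => if P i then (1 : Fin 2) else 0),
    Fin.is_lt _, fun τ hτ => ?_⟩
  have := dig_ffe (fun i : Fin K => if P i then (1 : Fin 2) else 0) ⟨τ, hτ⟩
  simp only at this
  rw [this]
  split_ifs with h <;> simp [h]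

/-- code of a subset -/
def tcode {n : ℕ} (T : Finset (Fin n)) : ℕ := ∑ i ∈ T, 2 ^ (i : ℕ)

theorem tcode_eq {n : ℕ} (T : Finset (Fin n)) :
    tcode T = finFunctionFinEquiv (fun i : Fin n => if i ∈ T then (1 : Fin 2) else 0) := by
  rw [finFunctionFinEquiv_apply, tcode, ← Finset.sum_filter_add_sum_filter_not Finset.univ
    (fun i => i ∈ T)]
  rw [Finset.sum_eq_zero (s := Finset.univ.filter fun i => ¬ i ∈ T), add_zero]
  · refine Finset.sum_congr (by ext; simp) fun i hi => ?_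
    simp [(Finset.mem_filter.1 hi).2]
  · intro i hi
    simp [(Finset.mem_filter.1 hi).2]

theorem tcode_lt {n : ℕ} (T : Finset (Fin n)) : tcode T < 2 ^ n := by
  rw [tcode_eq]; exact Fin.is_lt _

theorem dig_tcode {n : ℕ} (T : Finset (Fin n)) (i : Fin n) :
    dig 2 (tcode T) i = if i ∈ T then 1 else 0 := by
  rw [tcode_eq, dig_ffe]; split_ifs <;> rfl

theorem tcode_inj {n : ℕ} : Function.Injective (tcode (n := n)) := fun S T h => by
  ext i
  have h1 := dig_tcode S i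
  rw [h, dig_tcode] at h1
  by_cases a : i ∈ S <;> by_cases b : i ∈ T <;> simp_all

theorem tcode_surj {n : ℕ} (τ : ℕ) (hτ : τ < 2 ^ n) : ∃ T : Finset (Fin n), tcode T = τ := by
  refine ⟨Finset.univ.filter fun i => finFunctionFinEquiv.symm ⟨τ, hτ⟩ i = 1, ?_⟩
  rw [tcode_eq]
  have : (fun i : Fin n => if i ∈ (Finset.univ.filter fun i =>
      finFunctionFinEquiv.symm ⟨τ, hτ⟩ i = (1 : Fin 2)) then (1 : Fin 2) else 0) =
      finFunctionFinEquiv.symm ⟨τ, hτ⟩ := by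
    funext i
    simp only [Finset.mem_filter, Finset.mem_univ, true_and]
    generalize finFunctionFinEquiv.symm ⟨τ, hτ⟩ i = a
    revert a; decide
  rw [this, Equiv.apply_symm_apply]

theorem tcode_ne_zero {n : ℕ} (T : Finset (Fin n)) : tcode T ≠ 0 ↔ T.Nonempty := by
  have : tcode (∅ : Finset (Fin n)) = 0 := rfl
  rw [← this, tcode_inj.ne_iff, Finset.nonempty_iff_ne_empty]

theorem decode_surj : Function.Surjective decode := by
  intro c
  obtain ⟨⟨n, pos, E, hE⟩, rfl⟩ := Quotient.exists_rep c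
  obtain ⟨k, rfl⟩ : ∃ k, n = k + 1 := ⟨n - 1, by omega⟩
  obtain ⟨b, -, hb⟩ := exists_code (2 ^ (k + 1)) (fun τ => ∃ T ∈ E, tcode T = τ)
  refine ⟨(k, b), Quotient.sound ⟨Equiv.refl _, fun T => ?_⟩⟩
  have h1 := hb (tcode T) (tcode_lt T)
  have h2 : (∃ T' ∈ E, tcode T' = tcode T) ↔ T ∈ E :=
    ⟨fun ⟨T', h, h'⟩ => tcode_inj h' ▸ h, fun h => ⟨T, h, rfl⟩⟩
  rw [h2] at h1
  show T.Nonempty ∧ b.testBit (tcode T) = true ↔ T.map (Equiv.refl _).toEmbedding ∈ E
  rw [Nat.testBit_eq_decide_div_mod_eq, decide_eq_true_iff]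
  simp only [Equiv.refl_toEmbedding, Finset.map_refl]
  refine ⟨fun h => h1.1 h.2, fun h => ⟨?_, h1.2 h⟩⟩
  rw [Finset.nonempty_iff_ne_empty]
  rintro rfl
  exact hE h

/-- vectors as numbers -/
def vEquiv (m : ℕ) : (Fin m → ZMod 2) ≃ Fin (2 ^ m) := finFunctionFinEquiv (m := 2) (n := m)

theorem vEquiv_val {m : ℕ} (v : Fin m → ZMod 2) :
    (vEquiv m v : ℕ) = ∑ j : Fin m, (v j).val * 2 ^ (j : ℕ) := rfl

theorem dig_vEquiv {m : ℕ} (v : Fin m → ZMod 2) (j : Fin m) :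
    dig 2 (vEquiv m v) j = (v j).val := dig_ffe (m := 2) v j

/-- the set with code `a` -/
def Aset (m a : ℕ) : Set (Fin m → ZMod 2) := {v | dig 2 a (vEquiv m v) = 1}

theorem Aset_surj {m : ℕ} (A : Set (Fin m → ZMod 2)) : ∃ a, a < 2 ^ 2 ^ m ∧ Aset m a = A := by
  obtain ⟨a, ha, h⟩ := exists_code (2 ^ m) (fun τ => ∃ v ∈ A, (vEquiv m v : ℕ) = τ)
  refine ⟨a, ha, Set.ext fun v => ?_⟩
  show dig 2 a (vEquiv m v) = 1 ↔ _
  rw [h _ (Fin.is_lt _)]
  exact ⟨fun ⟨w, hw, e⟩ => (vEquiv m).injective (Fin.ext e) ▸ hw, fun h => ⟨v, h, rfl⟩⟩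

/-- tuples of vectors as numbers -/
def tEquiv (n m : ℕ) : (Fin n → Fin m → ZMod 2) ≃ Fin ((2 ^ m) ^ n) :=
  (Equiv.piCongrRight fun _ => vEquiv m).trans finFunctionFinEquiv

theorem dig_tEquiv {n m : ℕ} (Y : Fin n → Fin m → ZMod 2) (i : Fin n) :
    dig (2 ^ m) (tEquiv n m Y) i = vEquiv m (Y i) := dig_ffe _ i

/-- the code of a sum of vectors -/
def scode (n m y s τ : ℕ) : ℕ :=
  ∑ j ∈ range m, ((∑ i ∈ range n, dig 2 τ i * dig 2 (dig (2 ^ m) y (dig n s i)) j) % 2) * 2 ^ j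

theorem scode_eq {n m : ℕ} (Y : Fin n → Fin m → ZMod 2) (σ : Fin n → Fin n)
    (T : Finset (Fin n)) :
    scode n m (tEquiv n m Y) (finFunctionFinEquiv σ) (tcode T) = vEquiv m (∑ i ∈ T, Y (σ i)) := by
  rw [vEquiv_val, scode, Finset.sum_range]
  refine Finset.sum_congr rfl fun j _ => ?_
  congr 1
  rw [Finset.sum_range, ← ZMod.val_natCast]
  congr 1
  simp only [dig_ffe, dig_tEquiv, dig_vEquiv, dig_tcode]
  push_cast
  simp [Finset.sum_apply]

/-- the arithmetical form of `Realises` -/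
def RealB (n b m a y : ℕ) : Prop :=
  ∃ s, s < n ^ n ∧ ((∀ i, i < n → ∀ j, j < n → (dig n s i = dig n s j → i = j)) ∧
    ∀ τ, τ < 2 ^ n → (¬ τ = 0 → dig 2 b τ = dig 2 a (scode n m y s τ)))

theorem realB_iff (k b m a : ℕ) (Y : Fin (k + 1) → Fin m → ZMod 2) :
    RealB (k + 1) b m a (tEquiv (k + 1) m Y) ↔ Realises (decodeLM (k, b)) (Aset m a) Y := by
  have key : ∀ (σ : Fin (k + 1) → Fin (k + 1)) (T : Finset (Fin (k + 1))),
      (¬ tcode T = 0 → dig 2 b (tcode T) = dig 2 a (scode (k + 1) m (tEquiv (k + 1) m Y)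
        (finFunctionFinEquiv σ) (tcode T))) ↔
      (T ∈ (decodeLM (k, b)).E ↔ T.Nonempty ∧ ∑ i ∈ T, Y (σ i) ∈ Aset m a) := by
    intro σ T
    rw [scode_eq]
    show (tcode T ≠ 0 → _) ↔ (T.Nonempty ∧ b.testBit (tcode T) = true ↔
      T.Nonempty ∧ dig 2 a (vEquiv m (∑ i ∈ T, Y (σ i))) = 1)
    rw [tcode_ne_zero, Nat.testBit_eq_decide_div_mod_eq, decide_eq_true_iff]
    show _ ↔ (T.Nonempty ∧ dig 2 b (tcode T) = 1 ↔ _)
    have h1 := dig_two_lt b (tcode T)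
    have h2 := dig_two_lt a (vEquiv m (∑ i ∈ T, Y (σ i)))
    by_cases hT : T.Nonempty
    · simp only [hT, true_and, forall_true_left]; omega
    · simp [hT]
  constructor
  · rintro ⟨s, hs, h1, h2⟩
    set σ : Fin (k + 1) → Fin (k + 1) := finFunctionFinEquiv.symm ⟨s, hs⟩ with hσ
    have hs' : (finFunctionFinEquiv σ : ℕ) = s := by rw [hσ, Equiv.apply_symm_apply]
    have hi : Function.Injective σ := fun i j h => Fin.ext (h1 i i.2 j j.2 (by
      rw [← hs', dig_ffe, dig_ffe, h]))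
    refine ⟨Equiv.ofBijective σ (Finite.injective_iff_bijective.1 hi), fun T => ?_⟩
    refine (key σ T).1 ?_
    rw [hs']
    exact h2 _ (tcode_lt T)
  · rintro ⟨σ, hσ⟩
    refine ⟨finFunctionFinEquiv (n := k + 1) (m := k + 1) σ, Fin.is_lt _,
      fun i hi j hj h => ?_, fun τ hτ => ?_⟩
    · have h1 := dig_ffe (n := k + 1) (m := k + 1) σ ⟨i, hi⟩
      have h2 := dig_ffe (n := k + 1) (m := k + 1) σ ⟨j, hj⟩
      simp only at h1 h2
      rw [h1, h2] at h
      exact congrArg Fin.val (σ.injective (Fin.ext h))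
    · obtain ⟨T, rfl⟩ := tcode_surj τ hτ
      exact (key σ T).2 (hσ T)

open Classical in
/-- the number of tuples realising the model with code `(n - 1, b)` -/
noncomputable def cnt (n b m a : ℕ) : ℕ :=
  ∑ y ∈ range ((2 ^ m) ^ n), if RealB n b m a y then 1 else 0

theorem tdens_eq_cnt (k b m a : ℕ) :
    tdens (decodeLM (k, b)) (Aset m a) = (cnt (k + 1) b m a : ℝ) / (2 ^ m) ^ (k + 1) := by
  classical
  unfold tdens cnt
  rw [Fintype.expect_eq_sum_div_card, Finset.sum_range]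
  congr 1
  · push_cast
    refine Fintype.sum_equiv (tEquiv (k + 1) m) _ _ fun Y => ?_
    simp only [realB_iff]
  · show ((Fintype.card (Fin (k + 1) → Fin m → ZMod 2) : ℕ) : ℝ) = _
    simp [ZMod.card]

end Pool.Agent.H284Z.Lin
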