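import Mathlib

set_option autoImplicit false

namespace Pool.Agent.H284Z.Lin

open Finset BigOperators

/-- the image of the uniform distribution under a surjective homomorphism is uniform -/
theorem expect_hom {G H : Type} [AddCommGroup G] [AddCommGroup H] [Fintype G] [Fintype H]
    (f : G →+ H) (hf : Function.Surjective f) (h : H → ℝ) :
    𝔼 g, h (f g) = 𝔼 y, h y := by
  have h1 : ∀ g : G, 𝔼 y, h y = 𝔼 y, h (f g + y) := fun g =>
    (Fintype.expect_equiv (Equiv.addLeft (f g)) _ _ fun y => rfl).symm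
  have h2 : ∀ y : H, 𝔼 g, h (f g + y) = 𝔼 g, h (f g) := fun y => by
    obtain ⟨s, rfl⟩ := hf y
    exact Fintype.expect_equiv (Equiv.addRight s) _ _ fun g => by simp
  calc 𝔼 g, h (f g) = 𝔼 _y : H, 𝔼 g, h (f g) := (Fintype.expect_const _).symm
    _ = 𝔼 y : H, 𝔼 g, h (f g + y) := by simp_rw [h2]
    _ = 𝔼 g, 𝔼 y : H, h (f g + y) := Finset.expect_comm _ _ _
    _ = 𝔼 _g : G, 𝔼 y : H, h y := by simp_rw [← h1]
    _ = 𝔼 y, h y := Fintype.expect_const _

variable {V W : Type} [AddCommGroup V] [AddCommGroup W] [Module (ZMod 2) V] [Module (ZMod 2) W]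

/-- evaluation of a linear map on a tuple -/
def evalHom {ι : Type} (u : ι → W) : (W →ₗ[ZMod 2] V) →+ (ι → V) where
  toFun := fun φ i => φ (u i)
  map_zero' := rfl
  map_add' := fun _ _ => rfl

theorem evalHom_surj {ι : Type} (u : ι → W) (hu : LinearIndependent (ZMod 2) u) :
    Function.Surjective (evalHom (V := V) u) := by
  intro y
  obtain ⟨L, hL⟩ := LinearMap.exists_leftInverse_of_injective
    (Finsupp.linearCombination (ZMod 2) u) (LinearMap.ker_eq_bot.2 hu)
  refine ⟨(Finsupp.linearCombination (ZMod 2) y).comp L, funext fun i => ?_⟩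
  have h1 : u i = Finsupp.linearCombination (ZMod 2) u (Finsupp.single i 1) := by simp
  have h2 : L (u i) = Finsupp.single i 1 := by
    rw [h1]; exact LinearMap.congr_fun hL _
  show Finsupp.linearCombination (ZMod 2) y (L (u i)) = y i
  rw [h2]; simp

/-- a fixed linear combination of a tuple -/
def combHom {ι : Type} [Fintype ι] (c : ι → ZMod 2) : (ι → W) →+ W where
  toFun := fun u => ∑ i, c i • u i
  map_zero' := by simp
  map_add' := fun u v => by simp [Finset.sum_add_distrib]

theorem combHom_surj {ι : Type} [Fintype ι] (c : ι → ZMod 2) (hc : c ≠ 0) :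
    Function.Surjective (combHom (W := W) c) := by
  classical
  intro w
  obtain ⟨i, hi⟩ := Function.ne_iff.1 hc
  have h1 : c i = 1 := by
    have : ∀ a : ZMod 2, a ≠ 0 → a = 1 := by decide
    exact this _ hi
  refine ⟨Pi.single i w, ?_⟩
  show ∑ j, c j • (Pi.single i w : ι → W) j = w
  rw [Finset.sum_eq_single i]
  · simp [h1]
  · intro j _ hj; simp [Pi.single_eq_of_ne hj]
  · simp

open Classical in
theorem dep_prob {ι : Type} [Fintype ι] [DecidableEq ι] [Fintype W] :
    𝔼 u : ι → W, (if LinearIndependent (ZMod 2) u then (0 : ℝ) else 1) ≤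
      2 ^ Fintype.card ι / Fintype.card W := by
  have h1 : ∀ u : ι → W, (if LinearIndependent (ZMod 2) u then (0 : ℝ) else 1) ≤
      ∑ c : ι → ZMod 2, if c ≠ 0 ∧ combHom c u = 0 then (1 : ℝ) else 0 := by
    intro u
    split_ifs with h
    · exact Finset.sum_nonneg fun c _ => by split_ifs <;> norm_num
    · rw [Fintype.not_linearIndependent_iff] at h
      obtain ⟨c, hc, i, hi⟩ := h
      have h2 : c ≠ 0 ∧ combHom c u = 0 := ⟨fun h => hi (by rw [h]; rfl), hc⟩
      calc (1 : ℝ) = if c ≠ 0 ∧ combHom c u = 0 then (1 : ℝ) else 0 := by rw [if_pos h2]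
        _ ≤ _ := Finset.single_le_sum (f := fun c : ι → ZMod 2 =>
            if c ≠ 0 ∧ combHom c u = 0 then (1 : ℝ) else 0)
            (fun c _ => by split_ifs <;> norm_num) (Finset.mem_univ c)
  have h3 : ∀ c : ι → ZMod 2, 𝔼 u : ι → W, (if c ≠ 0 ∧ combHom c u = 0 then (1 : ℝ) else 0) ≤
      1 / Fintype.card W := by
    intro c
    by_cases hc : c = 0
    · simp [hc]
    · simp only [ne_eq, hc, not_false_eq_true, true_and]
      rw [expect_hom (combHom (W := W) c) (combHom_surj c hc)
        (fun w : W => if w = 0 then (1 : ℝ) else 0),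
        Fintype.expect_eq_sum_div_card]
      simp
  calc _ ≤ 𝔼 u : ι → W, ∑ c : ι → ZMod 2, if c ≠ 0 ∧ combHom c u = 0 then (1 : ℝ) else 0 :=
        Finset.expect_le_expect fun u _ => h1 u
    _ = ∑ c : ι → ZMod 2, 𝔼 u : ι → W, if c ≠ 0 ∧ combHom c u = 0 then (1 : ℝ) else 0 :=
        Finset.expect_sum_comm _ _ _
    _ ≤ ∑ _c : ι → ZMod 2, (1 / Fintype.card W : ℝ) := Finset.sum_le_sum fun c _ => h3 c
    _ = _ := by
        simp [Finset.sum_const, Finset.card_univ, ZMod.card, div_eq_mul_inv]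

theorem samp {ι : Type} [Fintype ι] [DecidableEq ι] [Fintype V] [Fintype W]
    [Fintype (W →ₗ[ZMod 2] V)] (H : (ι → V) → ℝ) (hH : ∀ y, H y ≤ 1) (h0 : 𝔼 y, H y = 0) :
    𝔼 φ : W →ₗ[ZMod 2] V, 𝔼 u : ι → W, H (fun i => φ (u i)) ≤
      2 ^ Fintype.card ι / Fintype.card W := by
  classical
  rw [Finset.expect_comm]
  refine le_trans (Finset.expect_le_expect fun u _ => ?_) (dep_prob (ι := ι) (W := W))
  split_ifs with h
  · have := expect_hom (evalHom (V := V) u) (evalHom_surj u h) H
    rw [h0] at this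
    exact le_of_eq this
  · exact Finset.expect_le Finset.univ_nonempty fun φ _ => hH _

theorem expect_sumArrow {α β X : Type} [Fintype α] [Fintype β] [DecidableEq α] [DecidableEq β]
    [Fintype X] (F : (α → X) → (β → X) → ℝ) :
    𝔼 y : α ⊕ β → X, F (fun i => y (Sum.inl i)) (fun i => y (Sum.inr i)) =
      𝔼 a : α → X, 𝔼 b : β → X, F a b := by
  rw [← Finset.expect_product', Finset.univ_product_univ]
  exact Fintype.expect_equiv (Equiv.sumArrowEquivProdArrow α β X) _ _ fun y => rfl

/-- the variance bound for sampling along a random linear map -/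
theorem var_bound {n : ℕ} [Fintype V] [Fintype W] [Fintype (W →ₗ[ZMod 2] V)]
    (h : (Fin n → V) → ℝ) (h0 : ∀ y, 0 ≤ h y) (h1 : ∀ y, h y ≤ 1) :
    𝔼 φ : W →ₗ[ZMod 2] V, ((𝔼 z : Fin n → W, h (fun i => φ (z i))) - 𝔼 y, h y) ^ 2 ≤
      4 ^ n / Fintype.card W := by
  set μ := 𝔼 y, h y with hμ
  have hμ0 : 0 ≤ μ := Finset.expect_nonneg fun y _ => h0 y
  have hμ1 : μ ≤ 1 := Finset.expect_le Finset.univ_nonempty fun y _ => h1 y
  have key := samp (V := V) (W := W) (ι := Fin n ⊕ Fin n)
    (fun y => (h (fun i => y (Sum.inl i)) - μ) * (h (fun i => y (Sum.inr i)) - μ))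
    (fun y => by
      have a0 := h0 (fun i => y (Sum.inl i))
      have a1 := h1 (fun i => y (Sum.inl i))
      have b0 := h0 (fun i => y (Sum.inr i))
      have b1 := h1 (fun i => y (Sum.inr i))
      nlinarith)
    (by
      rw [expect_sumArrow (fun a b => (h a - μ) * (h b - μ)), ← Fintype.expect_mul_expect,
        Finset.expect_sub_distrib, Fintype.expect_const, ← hμ]
      simp)
  have e1 : (2 : ℝ) ^ Fintype.card (Fin n ⊕ Fin n) = 4 ^ n := by
    rw [Fintype.card_sum, Fintype.card_fin, pow_add, ← mul_pow]; norm_num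
  rw [e1] at key
  refine le_trans (le_of_eq ?_) key
  refine Finset.expect_congr rfl fun φ _ => ?_
  rw [expect_sumArrow (X := W) (fun a b => (h (fun i => φ (a i)) - μ) * (h (fun i => φ (b i)) - μ)),
    ← Fintype.expect_mul_expect, Finset.expect_sub_distrib, Fintype.expect_const, sq]

end Pool.Agent.H284Z.Lin
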