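import Pool.Agent.H284Z.Lin.Defs
import Pool.Agent.H284Z.Lin.Sample

set_option autoImplicit false

namespace Pool.Agent.H284Z.Lin

open Finset BigOperators

/-- the tuple `y` realises `M` with respect to `A` -/
def Realises (M : LM) {V : Type} [AddCommGroup V] (A : Set V) (y : Fin M.n → V) : Prop :=
  ∃ σ : Equiv.Perm (Fin M.n), ∀ T : Finset (Fin M.n),
    T ∈ M.E ↔ T.Nonempty ∧ ∑ i ∈ T, y (σ i) ∈ A

open Classical in
/-- density with repetitions allowed -/
noncomputable def tdens (M : LM) {V : Type} [AddCommGroup V] [Fintype V] (A : Set V) : ℝ :=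
  𝔼 y : Fin M.n → V, if Realises M A y then (1 : ℝ) else 0

theorem realises_preimage (M : LM) {V W : Type} [AddCommGroup V] [AddCommGroup W] (A : Set V)
    (φ : W →+ V) (z : Fin M.n → W) :
    Realises M (φ ⁻¹' A) z ↔ Realises M A (fun i => φ (z i)) := by
  simp only [Realises, Set.mem_preimage, map_sum]

open Classical in
theorem tdens_preimage (M : LM) {V W : Type} [AddCommGroup V] [AddCommGroup W] [Fintype W]
    (A : Set V) (φ : W →+ V) :
    tdens M (φ ⁻¹' A) =
      𝔼 z : Fin M.n → W, if Realises M A (fun i => φ (z i)) then (1 : ℝ) else 0 := by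
  unfold tdens
  simp only [realises_preimage]

/-- postcomposition with a homomorphism -/
def postHom {ι V W : Type} [AddCommGroup V] [AddCommGroup W] (φ : W →+ V) :
    (ι → W) →+ (ι → V) where
  toFun := fun z i => φ (z i)
  map_zero' := by ext i; simp
  map_add' := fun a b => by ext i; simp

theorem tdens_blowup (M : LM) {V W : Type} [AddCommGroup V] [AddCommGroup W] [Fintype V]
    [Fintype W] (A : Set V) (φ : W →+ V) (hφ : Function.Surjective φ) :
    tdens M (φ ⁻¹' A) = tdens M A := by
  classical
  rw [tdens_preimage]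
  have hs : Function.Surjective (postHom (ι := Fin M.n) φ) := fun y => by
    choose s hs using hφ
    exact ⟨fun i => s (y i), funext fun i => hs _⟩
  exact expect_hom (postHom (ι := Fin M.n) φ) hs
    (fun y => @ite _ (Realises M A y) (Classical.propDecidable _) (1 : ℝ) 0)

theorem iso_n {M N : LM} (h : M.Iso N) : M.n = N.n := by
  obtain ⟨e, -⟩ := h
  simpa using Fintype.card_congr e

theorem induces_of_iso {M N : LM} (h : M.Iso N) {V : Type} (F : Set (Finset V)) (S : Finset V)
    (hS : Induces N F S) : Induces M F S := by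
  obtain ⟨e, he⟩ := h
  obtain ⟨f, hf, hT⟩ := hS
  refine ⟨e.toEmbedding.trans f, ?_, fun T => ?_⟩
  · rw [← Finset.map_map, Finset.map_univ_equiv, hf]
  · rw [he, hT, Finset.map_map]

theorem dens_iso {M N : LM} (h : M.Iso N) {V : Type} [Fintype V] (F : Set (Finset V)) :
    dens M F = dens N F := by
  have h' : N.Iso M := isoSetoid.symm h
  have : Induces M F = Induces N F :=
    funext fun S => propext ⟨induces_of_iso h' F S, induces_of_iso h F S⟩
  unfold dens
  rw [this, iso_n h]

theorem linPoint_mk {m : ℕ} (A : Set (Fin m → ZMod 2)) (M : LM) :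
    linPoint A (Quotient.mk isoSetoid M) = dens M (linEdges A) :=
  dens_iso (Quotient.mk_out (s := isoSetoid) M) _

theorem realises_iff (M : LM) {V : Type} [AddCommGroup V] [DecidableEq V] (A : Set V)
    (y : Fin M.n → V) (hy : Function.Injective y) :
    Realises M A y ↔
      Induces M {T : Finset V | T.Nonempty ∧ ∑ x ∈ T, x ∈ A} (Finset.univ.image y) := by
  constructor
  · rintro ⟨σ, hσ⟩
    refine ⟨σ.toEmbedding.trans ⟨y, hy⟩, ?_, fun T => ?_⟩
    · rw [← Finset.map_map, Finset.map_univ_equiv, Finset.map_eq_image]; rfl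
    · rw [hσ]
      simp [Finset.sum_map]
  · rintro ⟨e, he, hT⟩
    have h1 : ∀ i, ∃ j, y j = e i := fun i => by
      have : e i ∈ Finset.univ.image y := by rw [← he]; simp
      simpa using this
    choose s hs using h1
    have h2 : Function.Injective s := fun i j h => e.injective (by rw [← hs, ← hs, h])
    refine ⟨Equiv.ofBijective s (Finite.injective_iff_bijective.1 h2), fun T => ?_⟩
    rw [hT]
    simp [Finset.sum_map, hs]

open Classical in
theorem card_fiber {n : ℕ} {V : Type} [Fintype V] (S : Finset V) (hS : S.card = n) :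
    (Finset.univ.filter fun y : Fin n → V =>
      Function.Injective y ∧ Finset.univ.image y = S).card = n.factorial := by
  have h1 : Fintype.card (Fin n ↪ S) = n.factorial := by
    rw [Fintype.card_embedding_eq, Fintype.card_coe, hS, Fintype.card_fin, Nat.descFactorial_self]
  rw [← h1, ← Finset.card_univ]
  symm
  refine Finset.card_bij (fun f _ => fun i => (f i : V)) (fun f _ => ?_) (fun f _ g _ h => ?_)
    (fun y hy => ?_)
  · have hi : Function.Injective fun i => (f i : V) := Subtype.val_injective.comp f.injective
    refine Finset.mem_filter.2 ⟨Finset.mem_univ _, hi, ?_⟩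
    apply Finset.eq_of_subset_of_card_le
    · intro x hx
      obtain ⟨i, -, rfl⟩ := Finset.mem_image.1 hx
      exact (f i).2
    · rw [Finset.card_image_of_injective _ hi, hS]; simp
  · ext i
    exact congrFun h i
  · obtain ⟨-, hi, hy⟩ := Finset.mem_filter.1 hy
    refine ⟨⟨fun i => ⟨y i, by rw [← hy]; simp⟩, fun i j h => hi (congrArg Subtype.val h)⟩,
      Finset.mem_univ _, rfl⟩

open Classical in
theorem card_inj {n : ℕ} {V : Type} [Fintype V] (Q : Finset V → Prop) :
    (Finset.univ.filter fun y : Fin n → V =>
      Function.Injective y ∧ Q (Finset.univ.image y)).card =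
      n.factorial * ((Finset.powersetCard n (Finset.univ : Finset V)).filter Q).card := by
  rw [Finset.card_eq_sum_card_fiberwise (f := fun y : Fin n → V => Finset.univ.image y)
    (t := (Finset.powersetCard n (Finset.univ : Finset V)).filter Q)]
  · rw [mul_comm, ← smul_eq_mul, ← Finset.sum_const]
    refine Finset.sum_congr rfl fun S hS => ?_
    obtain ⟨h1, h2⟩ := Finset.mem_filter.1 hS
    rw [← card_fiber S (Finset.mem_powersetCard.1 h1).2, Finset.filter_filter]
    congr 1
    refine Finset.filter_congr fun y _ => ⟨fun h => ⟨h.1.1, h.2⟩, fun h => ⟨⟨h.1, ?_⟩, h.2⟩⟩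
    rw [h.2]; exact h2
  · intro y hy
    obtain ⟨-, hi, hy⟩ := Finset.mem_filter.1 (Finset.mem_coe.1 hy)
    refine Finset.mem_coe.2 (Finset.mem_filter.2 ⟨Finset.mem_powersetCard.2
      ⟨Finset.subset_univ _, ?_⟩, hy⟩)
    rw [Finset.card_image_of_injective _ hi]; simp

theorem arith_aux (G B D N : ℝ) (hG : 0 ≤ G) (hB : 0 ≤ B) (hGD : G ≤ D) (hN : 0 < N)
    (hBD : B + D ≤ N) : |G / D - (G + B) / N| ≤ (N - D) / N := by
  rcases eq_or_lt_of_le (hG.trans hGD) with hD | hD
  · have : G = 0 := by linarith
    subst this; subst hD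
    rw [abs_le]
    constructor
    · have : B / N ≤ N / N := by gcongr; linarith
      simp only [div_zero, zero_add, sub_zero]; linarith
    · have : 0 ≤ B / N := by positivity
      have : 0 ≤ N / N := by positivity
      simp only [div_zero, zero_add, sub_zero]; linarith
  · have e : G / D - (G + B) / N = (G / D * (N - D) - B) / N := by field_simp; ring
    have h1 : G / D ≤ 1 := (div_le_one hD).2 hGD
    have h2 : 0 ≤ G / D := by positivity
    rw [e, abs_div, abs_of_pos hN]
    gcongr
    rw [abs_le]
    constructor <;> nlinarith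

theorem dens_tdens (M : LM) {V : Type} [AddCommGroup V] [Module (ZMod 2) V] [Fintype V]
    (A : Set V) :
    |dens M {T : Finset V | T.Nonempty ∧ ∑ x ∈ T, x ∈ A} - tdens M A| ≤
      2 ^ M.n / Fintype.card V := by
  classical
  set F : Set (Finset V) := {T : Finset V | T.Nonempty ∧ ∑ x ∈ T, x ∈ A} with hF
  set G := (Finset.univ.filter fun y : Fin M.n → V =>
      Function.Injective y ∧ Realises M A y).card with hG
  set B := (Finset.univ.filter fun y : Fin M.n → V =>
      ¬ Function.Injective y ∧ Realises M A y).card with hB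
  set D := (Finset.univ.filter fun y : Fin M.n → V => Function.Injective y).card with hD
  set D' := (Finset.univ.filter fun y : Fin M.n → V => ¬ Function.Injective y).card with hD'
  set N := Fintype.card (Fin M.n → V) with hN
  have hNpos : (0 : ℝ) < N := by exact_mod_cast Fintype.card_pos
  have h1 : D + D' = N := by
    rw [hD, hD', Finset.card_filter_add_card_filter_not, Finset.card_univ]
  have h2 : G ≤ D := Finset.card_le_card fun y hy => by
    simp only [Finset.mem_filter] at hy ⊢; exact ⟨hy.1, hy.2.1⟩
  have h3 : B ≤ D' := Finset.card_le_card fun y hy => by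
    simp only [Finset.mem_filter] at hy ⊢; exact ⟨hy.1, hy.2.1⟩
  have h4 : tdens M A = ((G : ℝ) + B) / N := by
    unfold tdens
    rw [Fintype.expect_eq_sum_div_card, Finset.sum_boole]
    congr 1
    rw [← Nat.cast_add, hG, hB]
    congr 1
    rw [← Finset.card_filter_add_card_filter_not (fun y : Fin M.n → V => Function.Injective y),
      Finset.filter_filter, Finset.filter_filter]
    simp only [and_comm]
  have h5 : dens M F = (G : ℝ) / D := by
    have e1 : G = M.n.factorial *
        ((Finset.powersetCard M.n (Finset.univ : Finset V)).filter (Induces M F)).card := by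
      rw [← card_inj, hG]
      congr 1
      refine Finset.filter_congr fun y _ => and_congr_right fun hy => ?_
      convert realises_iff M A y hy
    have e2 : D = M.n.factorial * (Fintype.card V).choose M.n := by
      have := card_inj (n := M.n) (V := V) (fun _ => True)
      simp only [and_true, Finset.filter_true, Finset.card_powersetCard,
        Finset.card_univ] at this
      rw [← this, hD]
    have e3 : (M.n.factorial : ℝ) ≠ 0 := by exact_mod_cast (Nat.factorial_pos _).ne'
    unfold dens
    rw [e1, e2, Nat.cast_mul, Nat.cast_mul, mul_div_mul_left _ _ e3]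
  have h6 : ((N : ℝ) - D) / N ≤ 2 ^ M.n / Fintype.card V := by
    have e1 : ((N : ℝ) - D) / N =
        𝔼 y : Fin M.n → V, if ¬ Function.Injective y then (1 : ℝ) else 0 := by
      rw [Fintype.expect_eq_sum_div_card, Finset.sum_boole, ← hD', ← hN]
      congr 1
      rw [← h1]; push_cast; ring
    have e2 := dep_prob (ι := Fin M.n) (W := V)
    rw [Fintype.card_fin] at e2
    rw [e1]
    refine le_trans (Finset.expect_le_expect fun y _ => ?_) e2
    by_cases hy : LinearIndependent (ZMod 2) y
    · simp [hy, hy.injective]
    · simp only [hy, if_false]; split_ifs <;> norm_num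
  rw [h4, h5]
  refine le_trans (arith_aux _ _ _ _ (Nat.cast_nonneg _) (Nat.cast_nonneg _)
    (by exact_mod_cast h2) hNpos ?_) h6
  rw [← h1]; push_cast
  have : (B : ℝ) ≤ D' := by exact_mod_cast h3
  linarith

/-- the sampling lemma -/
theorem sampling {ι : Type} (R : List ι) (g : ι → LM) {V W : Type} [AddCommGroup V]
    [Module (ZMod 2) V] [Fintype V] [AddCommGroup W] [Module (ZMod 2) W] [Fintype W]
    (A : Set V) :
    ∃ A' : Set W, (R.map fun r => (tdens (g r) A' - tdens (g r) A) ^ 2).sum ≤
      (R.map fun r => (4 : ℝ) ^ (g r).n).sum / Fintype.card W := by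
  classical
  have : Finite (W →ₗ[ZMod 2] V) := DFunLike.finite _
  let _ : Fintype (W →ₗ[ZMod 2] V) := Fintype.ofFinite _
  have key : 𝔼 φ : W →ₗ[ZMod 2] V, (R.map fun r =>
      (tdens (g r) (φ.toAddMonoidHom ⁻¹' A) - tdens (g r) A) ^ 2).sum ≤
      (R.map fun r => (4 : ℝ) ^ (g r).n).sum / Fintype.card W := by
    induction R with
    | nil => simp
    | cons r R ih =>
      simp only [List.map_cons, List.sum_cons]
      rw [Finset.expect_add_distrib, add_div]
      refine add_le_add ?_ ih
      have := var_bound (V := V) (W := W)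
        (fun y => @ite _ (Realises (g r) A y) (Classical.propDecidable _) (1 : ℝ) 0)
        (fun y => by split_ifs <;> norm_num) (fun y => by split_ifs <;> norm_num)
      simp only [tdens_preimage]
      exact this
  obtain ⟨φ, -, hφ⟩ := Finset.exists_le_of_expect_le Finset.univ_nonempty key
  exact ⟨_, hφ⟩

end Pool.Agent.H284Z.Lin
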