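import Mathlib

set_option autoImplicit false

namespace Pool.Agent.H284Z.Lin

/-- A finite model of `T_Lin` on the vertex set `Fin n`, `n ≥ 1`.  A sequence of `k`-uniform
hypergraphs (`k ≥ 1`) on a set is the same as a family `E` of nonempty subsets:
`E_k(x_1,…,x_k)` holds iff the `x_i` are distinct and `{x_1,…,x_k} ∈ E`. -/
structure LM where
  n : ℕ
  pos : 0 < n
  E : Set (Finset (Fin n))
  noEmpty : ∅ ∉ E

/-- Isomorphism of finite models. -/
def LM.Iso (M N : LM) : Prop :=
  ∃ e : Fin M.n ≃ Fin N.n, ∀ T : Finset (Fin M.n), T ∈ M.E ↔ T.map e.toEmbedding ∈ N.E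

instance isoSetoid : Setoid LM where
  r := LM.Iso
  iseqv :=
    { refl := fun M => ⟨Equiv.refl _, fun T => by simp⟩
      symm := fun ⟨e, he⟩ => ⟨e.symm, fun T => by
        rw [he, Finset.map_map]; simp⟩
      trans := fun ⟨e, he⟩ ⟨f, hf⟩ => ⟨e.trans f, fun T => by
        rw [he, hf, Finset.map_map]; rfl⟩ }

/-- The set `𝓜` of isomorphism classes of finite models. -/
def Mod : Type := Quotient isoSetoid

/-- In the model with vertex set `V` and family of hyperedges `F`, the subset `S` induces a
submodel isomorphic to `M`. -/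
def Induces (M : LM) {V : Type} (F : Set (Finset V)) (S : Finset V) : Prop :=
  ∃ e : Fin M.n ↪ V, Finset.univ.map e = S ∧ ∀ T : Finset (Fin M.n), T ∈ M.E ↔ T.map e ∈ F

open Classical in
/-- The proportion of `|M|`-element subsets of `V` inducing a copy of `M`
(it is `0 / 0 = 0` when `|M| > |V|`). -/
noncomputable def dens (M : LM) {V : Type} [Fintype V] (F : Set (Finset V)) : ℝ :=
  (((Finset.powersetCard M.n (Finset.univ : Finset V)).filter (Induces M F)).card : ℝ) /
    ((Fintype.card V).choose M.n : ℝ)

/-- The hyperedges of the model `M_A` on `F_2^m`: nonempty sets whose sum lies in `A`. -/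
def linEdges {m : ℕ} (A : Set (Fin m → ZMod 2)) : Set (Finset (Fin m → ZMod 2)) :=
  {T | T.Nonempty ∧ ∑ x ∈ T, x ∈ A}

/-- The point `p(-, M_A)`. -/
noncomputable def linPoint {m : ℕ} (A : Set (Fin m → ZMod 2)) : Mod → ℝ :=
  fun c => dens (Quotient.out c) (linEdges A)

/-- Lineons: accumulation points (product topology) of the set of all `p(-, M_A)`. -/
def IsLineon (x : Mod → ℝ) : Prop :=
  AccPt x (Filter.principal
    {y : Mod → ℝ | ∃ (m : ℕ) (A : Set (Fin m → ZMod 2)), 1 ≤ m ∧ y = linPoint A})

/-- The computable listing of the models: `(k, b)` names the model on `Fin (k + 1)` whose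
hyperedges are the nonempty `T` such that the binary digit number `∑_{i ∈ T} 2 ^ i` of `b`
is `1`. -/
def decodeLM (c : ℕ × ℕ) : LM where
  n := c.1 + 1
  pos := Nat.succ_pos _
  E := {T | T.Nonempty ∧ c.2.testBit (∑ i ∈ T, 2 ^ (i : ℕ)) = true}
  noEmpty := fun h => Finset.not_nonempty_empty h.1

/-- The isomorphism class named by a code. -/
def decode (c : ℕ × ℕ) : Mod := Quotient.mk isoSetoid (decodeLM c)

/-- Codes of polynomials: a list of terms `(a, b, l)`, each standing for the monomial
`(a - b) * ∏_{c ∈ l} X_{decode c}`. -/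
abbrev Code : Type := List (ℕ × ℕ × List (ℕ × ℕ))

/-- The polynomial (with rational, in fact integer, coefficients) named by a code. -/
noncomputable def toPoly (P : Code) : MvPolynomial Mod ℚ :=
  (P.map fun t => MvPolynomial.C ((t.1 : ℚ) - (t.2.1 : ℚ)) *
    (t.2.2.map fun c => MvPolynomial.X (decode c)).prod).sum

end Pool.Agent.H284Z.Lin
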