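import Mathlib

set_option autoImplicit false

/-! Closure properties of primitive recursive functions (adapted from helper407 and helper421). -/

namespace Pool.Agent.H284Z.Lin.Prim

variable {α β γ : Type} [Primcodable α] [Primcodable β] [Primcodable γ]

attribute [fun_prop] Primrec

@[fun_prop] theorem pr_id : Primrec (fun a : α => a) := Primrec.id
@[fun_prop] theorem pr_const (b : β) : Primrec (fun _ : α => b) := Primrec.const b
@[fun_prop] theorem pr_comp {f : β → γ} {g : α → β} (hf : Primrec f) (hg : Primrec g) :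
    Primrec (fun a => f (g a)) := hf.comp hg
@[fun_prop] theorem pr_pair {f : α → β} {g : α → γ} (hf : Primrec f) (hg : Primrec g) :
    Primrec (fun a => (f a, g a)) := hf.pair hg
@[fun_prop] theorem pr_fst {f : α → β × γ} (hf : Primrec f) : Primrec (fun a => (f a).1) :=
  Primrec.fst.comp hf
@[fun_prop] theorem pr_snd {f : α → β × γ} (hf : Primrec f) : Primrec (fun a => (f a).2) :=
  Primrec.snd.comp hf
@[fun_prop] theorem pr_add {f g : α → ℕ} (hf : Primrec f) (hg : Primrec g) :
    Primrec (fun a => f a + g a) := Primrec.nat_add.comp hf hg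
@[fun_prop] theorem pr_sub {f g : α → ℕ} (hf : Primrec f) (hg : Primrec g) :
    Primrec (fun a => f a - g a) := Primrec.nat_sub.comp hf hg
@[fun_prop] theorem pr_mul {f g : α → ℕ} (hf : Primrec f) (hg : Primrec g) :
    Primrec (fun a => f a * g a) := Primrec.nat_mul.comp hf hg
@[fun_prop] theorem pr_div {f g : α → ℕ} (hf : Primrec f) (hg : Primrec g) :
    Primrec (fun a => f a / g a) := Primrec.nat_div.comp hf hg
@[fun_prop] theorem pr_mod {f g : α → ℕ} (hf : Primrec f) (hg : Primrec g) :
    Primrec (fun a => f a % g a) := Primrec.nat_mod.comp hf hg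
@[fun_prop] theorem pr_min {f g : α → ℕ} (hf : Primrec f) (hg : Primrec g) :
    Primrec (fun a => min (f a) (g a)) := Primrec.nat_min.comp hf hg
@[fun_prop] theorem pr_unpair {f : α → ℕ} (hf : Primrec f) :
    Primrec (fun a => (f a).unpair) := Primrec.unpair.comp hf
@[fun_prop] theorem pr_natPair {f g : α → ℕ} (hf : Primrec f) (hg : Primrec g) :
    Primrec (fun a => Nat.pair (f a) (g a)) := Primrec₂.natPair.comp hf hg

theorem pr_pow2 : Primrec₂ (fun a b : ℕ => a ^ b) := Primrec₂.unpaired'.1 Nat.Primrec.pow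

@[fun_prop] theorem pr_pow {f g : α → ℕ} (hf : Primrec f) (hg : Primrec g) :
    Primrec (fun a => f a ^ g a) := pr_pow2.comp hf hg

theorem pp_lt {f g : α → ℕ} (hf : Primrec f) (hg : Primrec g) :
    PrimrecPred (fun a => f a < g a) := Primrec.nat_lt.comp hf hg

theorem pp_le {f g : α → ℕ} (hf : Primrec f) (hg : Primrec g) :
    PrimrecPred (fun a => f a ≤ g a) := Primrec.nat_le.comp hf hg

theorem pp_eq {f g : α → ℕ} (hf : Primrec f) (hg : Primrec g) :
    PrimrecPred (fun a => f a = g a) := Primrec.eq.comp hf hg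

theorem pp_true : PrimrecPred (fun _ : α => True) :=
  (pp_eq (Primrec.const 0) (Primrec.const 0)).of_eq fun _ => by simp

theorem pp_not {p : α → Prop} (hp : PrimrecPred p) : PrimrecPred (fun a => ¬ p a) := hp.not

theorem pp_and {p q : α → Prop} (hp : PrimrecPred p) (hq : PrimrecPred q) :
    PrimrecPred (fun a => p a ∧ q a) := hp.and hq

theorem pp_or {p q : α → Prop} (hp : PrimrecPred p) (hq : PrimrecPred q) :
    PrimrecPred (fun a => p a ∨ q a) := hp.or hq

theorem pp_imp {p q : α → Prop} (hp : PrimrecPred p) (hq : PrimrecPred q) :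
    PrimrecPred (fun a => p a → q a) :=
  (hp.not.or hq).of_eq fun a => by tauto

theorem pp_iff {p q : α → Prop} (hp : PrimrecPred p) (hq : PrimrecPred q) :
    PrimrecPred (fun a => p a ↔ q a) :=
  ((pp_imp hp hq).and (pp_imp hq hp)).of_eq fun a => by tauto

theorem pp_ball {f : α → ℕ} {R : ℕ → α → Prop} (hf : Primrec f)
    (hR : PrimrecPred (fun p : ℕ × α => R p.1 p.2)) :
    PrimrecPred (fun a => ∀ x, x < f a → R x a) := by
  have h : PrimrecRel (fun (L : List ℕ) (b : α) => ∀ a ∈ L, R a b) :=
    PrimrecRel.forall_mem_list hR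
  have h2 : PrimrecPred (fun a => ∀ x ∈ List.range (f a), R x a) :=
    PrimrecRel.comp h (Primrec.list_range.comp hf) Primrec.id
  exact h2.of_eq fun a => by simp

theorem pp_bex {f : α → ℕ} {R : ℕ → α → Prop} (hf : Primrec f)
    (hR : PrimrecPred (fun p : ℕ × α => R p.1 p.2)) :
    PrimrecPred (fun a => ∃ x, x < f a ∧ R x a) := by
  have h : PrimrecRel (fun (L : List ℕ) (b : α) => ∃ a ∈ L, R a b) :=
    PrimrecRel.exists_mem_list hR
  have h2 : PrimrecPred (fun a => ∃ x ∈ List.range (f a), R x a) :=
    PrimrecRel.comp h (Primrec.list_range.comp hf) Primrec.id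
  exact h2.of_eq fun a => by simp

@[fun_prop] theorem pr_getD {f : α → List ℕ} {g : α → ℕ} (hf : Primrec f) (hg : Primrec g) :
    Primrec (fun a => (f a).getD (g a) 0) := (Primrec.list_getD 0).comp hf hg

@[fun_prop] theorem pr_cons {f : α → β} {g : α → List β} (hf : Primrec f) (hg : Primrec g) :
    Primrec (fun a => f a :: g a) := Primrec.list_cons.comp hf hg

@[fun_prop] theorem pr_length {f : α → List β} (hf : Primrec f) :
    Primrec (fun a => (f a).length) := Primrec.list_length.comp hf

@[fun_prop] theorem pr_ofNatList {f : α → ℕ} (hf : Primrec f) :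
    Primrec (fun a => Denumerable.ofNat (List ℕ) (f a)) := (Primrec.ofNat (List ℕ)).comp hf

theorem pr_sum {f : α → ℕ} {g : ℕ → α → ℕ} (hf : Primrec f)
    (hg : Primrec (fun p : ℕ × α => g p.1 p.2)) :
    Primrec (fun a => ∑ x ∈ Finset.range (f a), g x a) := by
  have h : Primrec (fun a => Nat.rec (motive := fun _ => ℕ) 0 (fun n s => s + g n a) (f a)) :=
    Primrec.nat_rec' hf (Primrec.const 0) (h := fun a p => p.2 + g p.1 a)
      (Primrec.nat_add.comp (Primrec.snd.comp Primrec.snd)
        (hg.comp ((Primrec.fst.comp Primrec.snd).pair Primrec.fst))).to₂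
  refine h.of_eq fun a => ?_
  induction f a with
  | zero => simp
  | succ n ih => rw [Finset.sum_range_succ, ← ih]

end Pool.Agent.H284Z.Lin.Prim
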