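import Pool.Agent.H284Z.Lin.Code
import Pool.Agent.H284Z.Lin.Prim

set_option autoImplicit false

namespace Pool.Agent.H284Z.Lin

open Finset BigOperators Pool.Agent.H284Z.Lin.Prim

/-- parameters `(q, d, m, R)` -/
abbrev Par : Type := ℕ × ℕ × ℕ × List ((ℕ × ℕ) × ℕ)

/-- total weight of a list of models -/
def wt (R : List ((ℕ × ℕ) × ℕ)) : ℕ := (R.map fun r => 4 ^ (r.1.1 + 1)).sum

/-- the set with code `a` is far from the centre in the coordinate `r` -/
def Far (q d m a : ℕ) (r : (ℕ × ℕ) × ℕ) : Prop :=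
  (r.2 + d + 1) * (2 ^ m) ^ (r.1.1 + 1) ≤ q * cnt (r.1.1 + 1) r.1.2 m a ∨
    q * cnt (r.1.1 + 1) r.1.2 m a + (d + 1) * (2 ^ m) ^ (r.1.1 + 1) ≤
      r.2 * (2 ^ m) ^ (r.1.1 + 1)

/-- the finite check -/
def Check (p : Par) : Prop :=
  4 * p.1 ^ 2 * wt p.2.2.2 ≤ 2 ^ p.2.2.1 ∧
    ∀ a, a < 2 ^ 2 ^ p.2.2.1 → ∃ r ∈ p.2.2.2, Far p.1 p.2.1 p.2.2.1 a r

/-- the code of `∑ (q X_r - c_r) ^ 2 - d ^ 2` -/
def poly (p : Par) : Code :=
  (0, p.2.1 ^ 2, []) :: p.2.2.2.flatMap fun r =>
    [(p.1 ^ 2, 0, [r.1, r.1]), (0, 2 * p.1 * r.2, [r.1]), (r.2 ^ 2, 0, [])]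

open Classical in
/-- the family of polynomials -/
noncomputable def famP (p : Par) : Code := if Check p then poly p else []

variable {α : Type} [Primcodable α]

@[fun_prop] theorem pr_dig {f g h : α → ℕ} (hf : Primrec f) (hg : Primrec g) (hh : Primrec h) :
    Primrec (fun a => dig (f a) (g a) (h a)) := by
  unfold dig; fun_prop

@[fun_prop] theorem pr_scode {n m y s τ : α → ℕ} (hn : Primrec n) (hm : Primrec m)
    (hy : Primrec y) (hs : Primrec s) (hτ : Primrec τ) :
    Primrec (fun a => scode (n a) (m a) (y a) (s a) (τ a)) := by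
  unfold scode
  refine pr_sum hm (pr_mul (pr_mod (pr_sum
    (g := fun i (p : ℕ × α) => dig 2 (τ p.2) i *
      dig 2 (dig (2 ^ m p.2) (y p.2) (dig (n p.2) (s p.2) i)) p.1)
    (by fun_prop) (by fun_prop)) (by fun_prop)) (by fun_prop))

theorem pp_RealB {n b m a y : α → ℕ} (hn : Primrec n) (hb : Primrec b)
    (hm : Primrec m) (ha : Primrec a) (hy : Primrec y) :
    PrimrecPred (fun x => RealB (n x) (b x) (m x) (a x) (y x)) := by
  unfold RealB
  refine pp_bex (by fun_prop) (pp_and (pp_ball (by fun_prop) (pp_ball (by fun_prop)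
    (pp_imp (pp_eq (by fun_prop) (by fun_prop)) (pp_eq (by fun_prop) (by fun_prop)))))
    (pp_ball (by fun_prop) (pp_imp (pp_not (pp_eq (by fun_prop) (by fun_prop)))
      (pp_eq (by fun_prop) (by fun_prop)))))

@[fun_prop] theorem pr_cnt {n b m a : α → ℕ} (hn : Primrec n) (hb : Primrec b)
    (hm : Primrec m) (ha : Primrec a) :
    Primrec (fun x => cnt (n x) (b x) (m x) (a x)) := by
  unfold cnt
  refine pr_sum (by fun_prop) ?_
  exact @Primrec.ite _ _ _ _ _ (fun _ => Classical.propDecidable _) _ _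
    (pp_RealB (by fun_prop) (by fun_prop) (by fun_prop) (by fun_prop) (by fun_prop))
    (Primrec.const 1) (Primrec.const 0)

theorem pp_Far {q d m a : α → ℕ} {r : α → (ℕ × ℕ) × ℕ} (hq : Primrec q) (hd : Primrec d)
    (hm : Primrec m) (ha : Primrec a) (hr : Primrec r) :
    PrimrecPred (fun x => Far (q x) (d x) (m x) (a x) (r x)) := by
  unfold Far
  exact pp_or (pp_le (by fun_prop) (by fun_prop)) (pp_le (by fun_prop) (by fun_prop))

theorem pr_wt : Primrec wt := by
  have h : Primrec fun R : List ((ℕ × ℕ) × ℕ) =>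
      R.foldr (fun b s => 4 ^ (b.1.1 + 1) + s) 0 :=
    Primrec.list_foldr (h := fun _ (p : ((ℕ × ℕ) × ℕ) × ℕ) => 4 ^ (p.1.1.1 + 1) + p.2)
      Primrec.id (Primrec.const 0) (by unfold Primrec₂; fun_prop)
  refine h.of_eq fun R => ?_
  unfold wt
  induction R with
  | nil => rfl
  | cons r R ih => simp [ih]

theorem pp_Check : PrimrecPred Check := by
  unfold Check
  have hw := pr_wt
  refine pp_and (pp_le (by fun_prop) (by fun_prop)) (pp_ball (by fun_prop) ?_)
  have h : PrimrecRel (fun (L : List ((ℕ × ℕ) × ℕ)) (x : ℕ × Par) =>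
      ∃ r ∈ L, Far x.2.1 x.2.2.1 x.2.2.2.1 x.1 r) :=
    PrimrecRel.exists_mem_list (R := fun (r : (ℕ × ℕ) × ℕ) (x : ℕ × Par) =>
      Far x.2.1 x.2.2.1 x.2.2.2.1 x.1 r)
      (pp_Far (α := ((ℕ × ℕ) × ℕ) × ℕ × Par) (by fun_prop) (by fun_prop) (by fun_prop)
        (by fun_prop) (by fun_prop))
  exact PrimrecRel.comp h (f := fun x : ℕ × Par => x.2.2.2.2) (by fun_prop) Primrec.id

theorem pr_poly : Primrec poly := by
  unfold poly
  refine pr_cons (by fun_prop) (Primrec.list_flatMap (by fun_prop) (by unfold Primrec₂; fun_prop))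

theorem pr_famP : Primrec famP := by
  unfold famP
  exact @Primrec.ite _ _ _ _ _ (fun _ => Classical.propDecidable _) _ _ pp_Check pr_poly
    (Primrec.const [])

/-- the enumeration -/
noncomputable def fam (i : ℕ) : Code :=
  famP ((Encodable.decode (α := Par) i).getD (0, 0, 0, []))

theorem computable_fam : Computable fam :=
  (pr_famP.comp (Primrec.option_getD.comp Primrec.decode (Primrec.const _))).to_comp

theorem fam_encode (p : Par) : fam (Encodable.encode p) = famP p := by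
  rw [fam, Encodable.encodek, Option.getD_some]

theorem eval_poly (x : Mod → ℝ) (p : Par) :
    MvPolynomial.aeval x (toPoly (poly p)) =
      (p.2.2.2.map fun r => ((p.1 : ℝ) * x (decode r.1) - r.2) ^ 2).sum - (p.2.1 : ℝ) ^ 2 := by
  obtain ⟨q, d, m, R⟩ := p
  have key : MvPolynomial.aeval x (toPoly (R.flatMap fun r =>
      [(q ^ 2, 0, [r.1, r.1]), (0, 2 * q * r.2, [r.1]), (r.2 ^ 2, 0, [])])) =
      (R.map fun r => ((q : ℝ) * x (decode r.1) - r.2) ^ 2).sum := by
    induction R with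
    | nil => simp [toPoly]
    | cons r R ih =>
      simp only [List.map_cons, List.sum_cons, ← ih]
      simp [toPoly]
      ring
  simp only [← key]
  simp [toPoly, poly]
  ring

end Pool.Agent.H284Z.Lin
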