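import Pool.Agent.H284Z.Lin.Family

set_option autoImplicit false

namespace Pool.Agent.H284Z.Lin

open Finset BigOperators Filter Topology

theorem card_vec (m : ℕ) : Fintype.card (Fin m → ZMod 2) = 2 ^ m := by simp [ZMod.card]

theorem linPoint_tdens {m : ℕ} (A : Set (Fin m → ZMod 2)) (c : ℕ × ℕ) :
    |linPoint A (decode c) - tdens (decodeLM c) A| ≤ 2 ^ (c.1 + 1) / 2 ^ m := by
  have h := dens_tdens (decodeLM c) A
  rw [card_vec] at h
  push_cast at h
  rw [decode, linPoint_mk]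
  exact h

theorem linPoint_ne {m m' : ℕ} (h : m < m') (A : Set (Fin m → ZMod 2))
    (A' : Set (Fin m' → ZMod 2)) : linPoint A ≠ linPoint A' := by
  classical
  let M : LM := ⟨2 ^ m', by positivity,
    {T | T.map (vEquiv m').symm.toEmbedding ∈ linEdges A'}, fun h => by
      simp [linEdges] at h⟩
  intro e
  have e1 := congrFun e (Quotient.mk isoSetoid M)
  rw [linPoint_mk, linPoint_mk] at e1
  have h1 : dens M (linEdges A) = 0 := by
    unfold dens
    rw [card_vec, Nat.choose_eq_zero_of_lt (Nat.pow_lt_pow_right (by norm_num) h)]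
    simp
  have h2 : 0 < dens M (linEdges A') := by
    unfold dens
    rw [card_vec]
    refine div_pos ?_ (by exact_mod_cast Nat.choose_pos le_rfl)
    have : (Finset.univ : Finset (Fin m' → ZMod 2)) ∈
        (Finset.powersetCard M.n Finset.univ).filter (Induces M (linEdges A')) := by
      refine Finset.mem_filter.2 ⟨Finset.mem_powersetCard.2 ⟨subset_rfl, ?_⟩,
        (vEquiv m').symm.toEmbedding, Finset.map_univ_equiv _, fun T => Iff.rfl⟩
      rw [Finset.card_univ, card_vec]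
    exact_mod_cast Finset.card_pos.2 ⟨_, by convert this⟩
  linarith

/-- restriction to the first coordinates -/
def restr (m j : ℕ) : (Fin (m + j) → ZMod 2) →+ (Fin m → ZMod 2) where
  toFun := fun v i => v (Fin.castAdd j i)
  map_zero' := rfl
  map_add' := fun _ _ => rfl

theorem restr_surj (m j : ℕ) : Function.Surjective (restr m j) := fun v =>
  ⟨Fin.append v 0, funext fun i => Fin.append_left _ _ i⟩

theorem exists_pow_bound {ι : Type} (L : List ι) (g : ι → ℕ) (ε : ℝ) (hε : 0 < ε) :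
    ∃ N₀ : ℕ, ∀ N, N₀ ≤ N → ∀ r ∈ L, (2 : ℝ) ^ g r / 2 ^ N ≤ ε := by
  have h : ∀ r, ∀ᶠ N : ℕ in atTop, (2 : ℝ) ^ g r / 2 ^ N ≤ ε := fun r => by
    have := (tendsto_pow_atTop_atTop_of_one_lt (one_lt_two (α := ℝ))).const_div_atTop
      ((2 : ℝ) ^ g r)
    exact this.eventually (ge_mem_nhds hε)
  have h2 : ∀ᶠ N : ℕ in atTop, ∀ r ∈ L, (2 : ℝ) ^ g r / 2 ^ N ≤ ε :=
    (Filter.eventually_all_finite (List.finite_toSet L)).2 fun r _ => h r
  exact Filter.eventually_atTop.1 h2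

theorem lineon_approx {x : Mod → ℝ} (hx : IsLineon x) (L : List (ℕ × ℕ)) (ε : ℝ) (hε : 0 < ε) :
    ∃ (N : ℕ) (A : Set (Fin N → ZMod 2)), ∀ c ∈ L, |x (decode c) - tdens (decodeLM c) A| ≤ ε := by
  obtain ⟨N₀, hN₀⟩ := exists_pow_bound L (fun c => c.1 + 1) (ε / 2) (by positivity)
  set U : Set (Mod → ℝ) := {y | ∀ c ∈ L, |y (decode c) - x (decode c)| < ε / 2} with hU
  have hUn : U ∈ 𝓝 x := by
    refine (Filter.eventually_all_finite (List.finite_toSet L)).2 fun c _ => ?_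
    have : ContinuousAt (fun y : Mod → ℝ => |y (decode c) - x (decode c)|) x :=
      (((continuous_apply (decode c)).sub continuous_const).abs).continuousAt
    exact this.eventually (gt_mem_nhds (by simpa using hε))
  have h1 := (AccPt.nhds_inter hx hUn)
  have h2 := Set.Infinite.of_accPt h1
  have h3 : (⋃ m ∈ Set.Iio N₀, Set.range (linPoint (m := m))).Finite :=
    (Set.finite_Iio N₀).biUnion fun m _ => Set.finite_range _
  obtain ⟨y, ⟨hyU, N, A, -, rfl⟩, hy⟩ := (h2.sdiff h3).nonempty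
  have hN : N₀ ≤ N := by
    by_contra h
    exact hy (Set.mem_biUnion (Set.mem_Iio.2 (not_le.1 h)) ⟨A, rfl⟩)
  refine ⟨N, A, fun c hc => ?_⟩
  have a1 := hyU c hc
  have a2 := (linPoint_tdens A c).trans (hN₀ N hN c hc)
  rw [abs_le] at a2 ⊢
  rw [abs_lt] at a1
  constructor <;> linarith [a1.1, a1.2, a2.1, a2.2]

theorem far_iff (q d m a : ℕ) (r : (ℕ × ℕ) × ℕ) :
    Far q d m a r ↔ (d : ℝ) + 1 ≤ |q * tdens (decodeLM r.1) (Aset m a) - r.2| := by
  obtain ⟨⟨k, b⟩, c⟩ := r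
  have hK : (0 : ℝ) < (2 ^ m) ^ (k + 1) := by positivity
  simp only [Far, tdens_eq_cnt]
  rw [le_abs, ← mul_div_assoc]
  refine or_congr ?_ ?_
  · rw [le_sub_iff_add_le, le_div_iff₀ hK, ← Nat.cast_le (α := ℝ)]
    push_cast
    constructor <;> intro h <;> linarith
  · rw [neg_sub, le_sub_comm, div_le_iff₀ hK, ← Nat.cast_le (α := ℝ)]
    push_cast
    constructor <;> intro h <;> linarith

theorem single_le_list {ι : Type} (L : List ι) (f : ι → ℝ) (hf : ∀ r, 0 ≤ f r) {r : ι}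
    (hr : r ∈ L) : f r ≤ (L.map f).sum :=
  List.single_le_sum (fun _ hy => by
    obtain ⟨s, -, rfl⟩ := List.mem_map.1 hy; exact hf s) _ (List.mem_map_of_mem hr)

theorem sound {x : Mod → ℝ} (hx : IsLineon x) (p : Par) :
    0 ≤ MvPolynomial.aeval x (toPoly (famP p)) := by
  unfold famP
  split_ifs with hp
  swap
  · simp [toPoly]
  obtain ⟨q, d, m, R⟩ := p
  obtain ⟨h1, h2⟩ := hp
  simp only at h1 h2
  rw [eval_poly]
  simp only
  obtain ⟨N, A, hA⟩ := lineon_approx hx (R.map Prod.fst) (1 / (2 * (q + 1))) (by positivity)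
  obtain ⟨A', hA'⟩ := sampling (W := Fin m → ZMod 2) R (fun r => decodeLM r.1) A
  obtain ⟨a, ha, rfl⟩ := Aset_surj A'
  obtain ⟨r, hr, hfar⟩ := h2 a ha
  rw [far_iff] at hfar
  have e1 := hA r.1 (List.mem_map_of_mem hr)
  have e2 := (single_le_list R (fun r => (tdens (decodeLM r.1) (Aset m a) -
    tdens (decodeLM r.1) A) ^ 2) (fun _ => sq_nonneg _) hr).trans hA'
  have e3 : (R.map fun r => (4 : ℝ) ^ (decodeLM r.1).n).sum = (wt R : ℝ) := by
    simp [wt, decodeLM, Function.comp_def]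
  rw [e3, card_vec, le_div_iff₀ (by positivity)] at e2
  have e4 : (4 : ℝ) * q ^ 2 * wt R ≤ (2 ^ m : ℕ) := by exact_mod_cast h1
  have e5 := single_le_list R (fun r => ((q : ℝ) * x (decode r.1) - r.2) ^ 2)
    (fun _ => sq_nonneg _) hr
  set s := tdens (decodeLM r.1) (Aset m a)
  set t := tdens (decodeLM r.1) A
  set u := x (decode r.1)
  have hq : (0 : ℝ) ≤ q := Nat.cast_nonneg _
  have hK : (0 : ℝ) < (2 ^ m : ℕ) := by positivity
  have e6 : (q * (s - t)) ^ 2 ≤ (1 / 2) ^ 2 := by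
    have : (q * (s - t)) ^ 2 * (2 ^ m : ℕ) ≤ (1 / 2) ^ 2 * (2 ^ m : ℕ) := by
      have := mul_le_mul_of_nonneg_left e2 (sq_nonneg (q : ℝ))
      nlinarith
    exact le_of_mul_le_mul_right this hK
  have e7 := abs_le_of_sq_le_sq' e6 (by norm_num)
  have e8 : |q * (u - t)| ≤ 1 / 2 := by
    rw [abs_mul, abs_of_nonneg hq]
    calc (q : ℝ) * |u - t| ≤ (q + 1) * (1 / (2 * (q + 1))) := by gcongr; linarith
      _ = 1 / 2 := by field_simp
  rw [abs_le] at e8
  have e9 : (d : ℝ) ≤ |q * u - r.2| := by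
    rw [le_abs] at hfar ⊢
    rcases hfar with h | h
    · left; nlinarith [e7.1, e7.2, e8.1, e8.2]
    · right; nlinarith [e7.1, e7.2, e8.1, e8.2]
  have e10 : (d : ℝ) ^ 2 ≤ (q * u - r.2) ^ 2 := by
    rw [← sq_abs (q * u - r.2)]
    gcongr
  linarith

theorem approx_of_ineq {x : Mod → ℝ} (h0 : ∀ c, 0 ≤ x c)
    (hx : ∀ p : Par, 0 ≤ MvPolynomial.aeval x (toPoly (famP p))) (L : List (ℕ × ℕ)) (ε : ℝ)
    (hε : 0 < ε) :
    ∃ (m : ℕ) (A : Set (Fin m → ZMod 2)), ∀ c ∈ L, |x (decode c) - tdens (decodeLM c) A| ≤ ε := by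
  obtain ⟨q, hq⟩ := exists_nat_gt (((L.length : ℝ) + 3) / ε)
  have hq0 : (0 : ℝ) < q := lt_trans (by positivity) hq
  rw [div_lt_iff₀ hε] at hq
  set R : List ((ℕ × ℕ) × ℕ) := L.map fun c => (c, ⌊(q : ℝ) * x (decode c)⌋₊) with hR
  set m := 4 * q ^ 2 * wt R with hm
  have hfl : ∀ c, |(q : ℝ) * x (decode c) - ⌊(q : ℝ) * x (decode c)⌋₊| ≤ 1 := fun c => by
    have h1 := Nat.floor_le (mul_nonneg hq0.le (h0 (decode c)))
    have h2 := Nat.lt_floor_add_one ((q : ℝ) * x (decode c))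
    rw [abs_le]; constructor <;> linarith
  have hn : ¬ Check (q, L.length + 1, m, R) := by
    intro hc
    have h1 := hx (q, L.length + 1, m, R)
    rw [famP, if_pos hc, eval_poly] at h1
    simp only at h1
    have h2 : (R.map fun r => ((q : ℝ) * x (decode r.1) - r.2) ^ 2).sum ≤ (L.length : ℝ) := by
      have := List.sum_le_card_nsmul (R.map fun r => ((q : ℝ) * x (decode r.1) - r.2) ^ 2) 1
        (fun y hy => by
          obtain ⟨r, hr, rfl⟩ := List.mem_map.1 hy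
          obtain ⟨c, -, rfl⟩ := List.mem_map.1 hr
          exact (sq_le_one_iff_abs_le_one _).2 (hfl c))
      simpa [hR] using this
    push_cast at h1
    have : (0 : ℝ) ≤ L.length := Nat.cast_nonneg _
    nlinarith
  have h3 : ¬ ∀ a, a < 2 ^ 2 ^ m → ∃ r ∈ R, Far q (L.length + 1) m a r :=
    fun h => hn ⟨Nat.lt_two_pow_self.le, h⟩
  push Not at h3
  obtain ⟨a, -, ha⟩ := h3
  refine ⟨m, Aset m a, fun c hc => ?_⟩
  have h4 := ha (c, ⌊(q : ℝ) * x (decode c)⌋₊) (List.mem_map_of_mem hc)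
  rw [far_iff, not_le] at h4
  have h5 := hfl c
  simp only at h4
  push_cast at h4
  have h6 : (q : ℝ) * |x (decode c) - tdens (decodeLM c) (Aset m a)| ≤ q * ε := by
    rw [← abs_of_pos hq0, ← abs_mul, abs_of_pos hq0, abs_le]
    rw [abs_le] at h5
    rw [abs_lt] at h4
    constructor <;> nlinarith [h4.1, h4.2, h5.1, h5.2]
  exact le_of_mul_le_mul_left h6 hq0

theorem complete {x : Mod → ℝ} (h0 : ∀ c, 0 ≤ x c)
    (hx : ∀ p : Par, 0 ≤ MvPolynomial.aeval x (toPoly (famP p))) : IsLineon x := by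
  have key : ∀ k : ℕ, ∃ y ∈ {y : Mod → ℝ | ∃ (m : ℕ) (A : Set (Fin m → ZMod 2)),
      1 ≤ m ∧ y = linPoint A} \ {x}, ∀ j < k,
      |y (decode j.unpair) - x (decode j.unpair)| ≤ 2 * (1 / ((k : ℝ) + 1)) := by
    intro k
    obtain ⟨m, A, hA⟩ := approx_of_ineq h0 hx ((List.range k).map Nat.unpair)
      (1 / ((k : ℝ) + 1)) (by positivity)
    obtain ⟨N₀, hN₀⟩ := exists_pow_bound ((List.range k).map Nat.unpair) (fun c => c.1 + 1)
      (1 / ((k : ℝ) + 1)) (by positivity)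
    have h1 : ∀ j, N₀ ≤ j → ∀ i < k, |linPoint (restr m j ⁻¹' A) (decode i.unpair) -
        x (decode i.unpair)| ≤ 2 * (1 / ((k : ℝ) + 1)) := by
      intro j hj i hi
      have hm : i.unpair ∈ (List.range k).map Nat.unpair :=
        List.mem_map_of_mem (List.mem_range.2 hi)
      have a1 := hA _ hm
      have a2 := (linPoint_tdens (restr m j ⁻¹' A) i.unpair).trans (hN₀ (m + j) (by omega) _ hm)
      rw [tdens_blowup _ _ _ (restr_surj m j)] at a2
      rw [abs_le] at a1 a2 ⊢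
      constructor <;> linarith [a1.1, a1.2, a2.1, a2.2]
    by_cases h : linPoint (restr m (N₀ + 1) ⁻¹' A) = x
    · refine ⟨linPoint (restr m (N₀ + 2) ⁻¹' A), ⟨⟨_, _, by omega, rfl⟩, ?_⟩, h1 _ (by omega)⟩
      rw [← h]
      exact (linPoint_ne (by omega) _ _).symm
    · exact ⟨_, ⟨⟨_, _, by omega, rfl⟩, h⟩, h1 _ (by omega)⟩
  choose y hy hy' using key
  unfold IsLineon
  rw [accPt_principal_iff_clusterPt, ← mem_closure_iff_clusterPt]
  refine mem_closure_of_tendsto (f := y) (b := atTop) ?_ (Filter.Eventually.of_forall hy)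
  rw [tendsto_pi_nhds]
  intro c
  obtain ⟨c, rfl⟩ := decode_surj c
  rw [tendsto_iff_norm_sub_tendsto_zero]
  have h2 : Tendsto (fun k : ℕ => 2 * (1 / ((k : ℝ) + 1))) atTop (𝓝 0) := by
    simpa using (tendsto_one_div_add_atTop_nhds_zero_nat (𝕜 := ℝ)).const_mul 2
  refine squeeze_zero' (Filter.Eventually.of_forall fun _ => norm_nonneg _) ?_ h2
  filter_upwards [Filter.eventually_gt_atTop (Nat.pair c.1 c.2)] with k hk
  have := hy' k _ hk
  rw [Nat.unpair_pair] at this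
  exact this

theorem main : ∃ f : ℕ → Code, Computable f ∧ ∀ x : Mod → ℝ, (∀ c, x c ∈ Set.Icc (0 : ℝ) 1) →
    (IsLineon x ↔ ∀ i, 0 ≤ MvPolynomial.aeval x (toPoly (f i))) :=
  ⟨fam, computable_fam, fun _ hx => ⟨fun h _ => sound h _, fun h =>
    complete (fun c => (hx c).1) fun p => fam_encode p ▸ h (Encodable.encode p)⟩⟩

end Pool.Agent.H284Z.Lin
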